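import Pool.Agent.Helper93.HZ.Spec1

/-!
# HZ, module INF
-/

set_option autoImplicit false

open MulAction Pointwise

namespace Pool.Agent.Helper93.HZ

theorem inf_exp {G : Type} [Group G] (D : Setup G) (n : ℤ) (h : D.t ^ n ∈ D.θ.range) : n = 0 := by
  obtain ⟨Ψ, h1, h2⟩ := D.univ (Multiplicative ℤ) 1 (Multiplicative.ofAdd 1) (by simp)
  obtain ⟨g, hg⟩ := h
  have h3 : Ψ (D.t ^ n) = 1 := by
    rw [← hg, h1]; rfl
  rw [map_zpow, h2] at h3
  have h4 := congrArg Multiplicative.toAdd h3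
  rw [toAdd_zpow] at h4
  simpa using h4

theorem inf_fin {G : Type} [Group G] (D : Setup G) (S : Subgroup G) (hS : FC S) :
    ¬ S.FiniteIndex := by
  intro hfi
  obtain ⟨r, hr, _, htr⟩ := Subgroup.exists_pow_mem_of_index_ne_zero hfi.index_ne_zero D.t
  rcases hS with hfin | hcyc
  · have h1 : IsOfFinOrder (⟨D.t ^ r, htr⟩ : S) := isOfFinOrder_of_finite _
    obtain ⟨k, hk, hk1⟩ := h1.exists_pow_eq_one
    have h2 : D.t ^ (r * k) = 1 := by
      rw [pow_mul]
      exact congrArg Subtype.val hk1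
    have h3 := inf_exp D ((r * k : ℕ) : ℤ) (by
      rw [zpow_natCast, h2]; exact one_mem _)
    have h4 : r * k = 0 := by exact_mod_cast h3
    have : 0 < r * k := Nat.mul_pos hr hk
    omega
  · obtain ⟨⟨s, hsS⟩, hs⟩ := hcyc.exists_generator
    obtain ⟨n, hn, _, hbn⟩ := Subgroup.exists_pow_mem_of_index_ne_zero hfi.index_ne_zero (D.θ D.b)
    obtain ⟨m, hm⟩ := Subgroup.mem_zpowers_iff.1 (hs ⟨_, hbn⟩)
    obtain ⟨j, hj⟩ := Subgroup.mem_zpowers_iff.1 (hs ⟨_, htr⟩)
    have hm' : s ^ m = (D.θ D.b) ^ n := congrArg Subtype.val hm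
    have hj' : s ^ j = D.t ^ r := congrArg Subtype.val hj
    have hm0 : m ≠ 0 := by
      intro h0
      rw [h0, zpow_zero, ← map_pow] at hm'
      have h5 : D.b ^ n = 1 := by
        apply D.θinj
        rw [map_one, ← hm']
      exact D.binf (isOfFinOrder_iff_pow_eq_one.2 ⟨n, hn, h5⟩)
    have h6 : D.t ^ ((r : ℤ) * m) ∈ D.θ.range := by
      have h7 : D.t ^ ((r : ℤ) * m) = D.θ (D.b ^ ((n : ℤ) * j)) := by
        rw [zpow_mul, zpow_natCast, ← hj', ← zpow_mul, mul_comm j m, zpow_mul, hm', map_zpow,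
          zpow_mul, zpow_natCast]
      rw [h7]
      exact ⟨_, rfl⟩
    have h8 := inf_exp D _ h6
    rcases mul_eq_zero.1 h8 with h9 | h9
    · have : r = 0 := by exact_mod_cast h9
      omega
    · exact hm0 h9

theorem inf_conj {G : Type} [Group G] {U : Type} [MulAction G U] (g z : G) (u w : U)
    (h : stabilizer G u ⊓ stabilizer G w = Subgroup.zpowers z) :
    stabilizer G (g • u) ⊓ stabilizer G (g • w) = Subgroup.zpowers (g * z * g⁻¹) := by
  ext x
  have h1 : x ∈ stabilizer G (g • u) ⊓ stabilizer G (g • w) ↔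
      g⁻¹ * x * g ∈ stabilizer G u ⊓ stabilizer G w := by
    rw [Subgroup.mem_inf, Subgroup.mem_inf, mem_stabilizer_iff, mem_stabilizer_iff,
      mem_stabilizer_iff, mem_stabilizer_iff, mul_smul, mul_smul, mul_smul, mul_smul,
      inv_smul_eq_iff, inv_smul_eq_iff]
  rw [h1, h, Subgroup.mem_zpowers_iff, Subgroup.mem_zpowers_iff]
  constructor
  · rintro ⟨k, hk⟩
    refine ⟨k, ?_⟩
    rw [conj_zpow, hk]
    group
  · rintro ⟨k, hk⟩
    refine ⟨k, ?_⟩
    rw [conj_zpow] at hk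
    rw [← hk]
    group

theorem inf_ord {G : Type} [Group G] (D : Setup G) (g : G) :
    ¬ IsOfFinOrder (g * D.θ D.b * g⁻¹) := by
  intro h
  obtain ⟨n, hn, h1⟩ := isOfFinOrder_iff_pow_eq_one.1 h
  rw [conj_pow, mul_inv_eq_one, mul_eq_left, ← map_pow] at h1
  have h5 : D.b ^ n = 1 := by
    apply D.θinj
    rw [map_one, h1]
  exact D.binf (isOfFinOrder_iff_pow_eq_one.2 ⟨n, hn, h5⟩)

theorem st_INF : ST_INF := by
  intro G _ D
  refine ⟨inf_fin D, ?_, ?_, ?_⟩
  · intro u w huw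
    rw [D.adj_iff] at huw
    rcases huw with h | h
    · obtain ⟨g, h1, h2⟩ := D.etrans u w h
      refine ⟨g * D.θ D.b * g⁻¹, inf_ord D g, ?_⟩
      rw [← h1, ← h2]
      exact inf_conj g _ _ _ D.stabe
    · obtain ⟨g, h1, h2⟩ := D.etrans w u h
      refine ⟨g * D.θ D.b * g⁻¹, inf_ord D g, ?_⟩
      rw [inf_comm, ← h1, ← h2]
      exact inf_conj g _ _ _ D.stabe
  · have h := inf_conj D.t⁻¹ (D.θ D.b) D.u0 (D.t • D.u0) D.stabe
    rw [inv_smul_smul, inf_comm, ← D.rel] at h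
    rw [h]
    congr 1
    group
  · intro g u w huw ⟨h1, h2⟩
    rw [D.adj_iff] at huw
    rcases huw with h | h
    · have h3 := D.arr_smul g _ _ h
      rw [h1, h2] at h3
      exact D.arr_asymm _ _ h h3
    · have h3 := D.arr_smul g _ _ h
      rw [h1, h2] at h3
      exact D.arr_asymm _ _ h h3

end Pool.Agent.Helper93.HZ
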